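import Pool.Agent.H77.KurD

open H77.Kur

theorem Pool.Agent.Results.MP_879d44_al.KuroshEnds.result :
    Countable Gam ∧ (∀ g : Gam, IsOfFinOrder g → g = 1) ∧ Countable (AI Gam) ∧
      TopologicalSpace.MetrizableSpace (Ends Gam) ∧ ¬ FiniteKuroshRank Gam :=
  ⟨countable_gam, torsion_free, countable_ai, metrizable, not_finite_rank⟩
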